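import Pool.Agent.Y251.RQ.NRep3
import Pool.Agent.Results.MP_d09f5b_an.SpectralPermanence

/-!
# Commutants of representations of compact groups have the spectral permanence property

Let `ρ` be a bounded strongly continuous representation of a compact group `G`, abelian or not, on a
Banach space `X` (for example the translations of `L^p(G)`, `1 ≤ p < ∞`, or of any homogeneous Banach
space on `G`, the action on `L^p(Y; E)` if `G` acts on `Y`, or a trivial representation, when the
commutant is `B(X)`). Every noninvertible element of the commutant `ρ(G)'` is a left or a right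
topological divisor of zero in `ρ(G)'`, so `ρ(G)'` has the spectral permanence property, with respect
to all (also noncommutative) normed algebras containing it.
-/

set_option autoImplicit false
set_option linter.unusedSectionVars false
set_option linter.overlappingInstances false

open MeasureTheory Topology
open Pool.Agent.Results.MP_d09f5b_an.SpectralPermanence (MultiplierAlgebra ident ident_isEmbedding Op)

namespace Pool.Agent.Results.MP_d09f5b_an.CommutantPermanence

universe u v w

/-- The algebra of all bounded operators on `X` commuting with all `ρ x`, with composition and the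
operator norm. -/
def Commutant {G : Type u} [Group G] {X : Type v} [NormedAddCommGroup X] [NormedSpace ℂ X]
    (ρ : G →* (X →L[ℂ] X)) : Subalgebra ℂ (X →L[ℂ] X) :=
  Subalgebra.centralizer ℂ (Set.range ρ)

/-- `ρ` is a bounded strongly continuous representation of `G` on `X`. -/
def IsRep {G : Type u} [Group G] [TopologicalSpace G] {X : Type v} [NormedAddCommGroup X]
    [NormedSpace ℂ X] (ρ : G →* (X →L[ℂ] X)) : Prop :=
  (∃ M : ℝ, ∀ x, ‖ρ x‖ ≤ M) ∧ ∀ v, Continuous fun x => ρ x v

/-- The unital complex topological algebra `A` has the (strong) spectral permanence property: for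
every unital complex normed algebra `B`, commutative or not, complete or not, and every unital
homomorphism `j : A → B` which is a homeomorphism onto its image (in particular if `A` is a closed
subalgebra of `B`), the spectrum of `j x` in `B` is the spectrum of `x` in `A`. -/
def HasSpectralPermanence (A : Type u) [Ring A] [Algebra ℂ A] [TopologicalSpace A] : Prop :=
  ∀ (B : Type v) [NormedRing B] [NormedAlgebra ℂ B] (j : A →ₐ[ℂ] B), IsEmbedding j →
    ∀ x : A, spectrum ℂ (j x) = spectrum ℂ x

/-- The unital normed algebra `A` is such that all its noninvertible elements are left or right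
topological divisors of zero. -/
def SingularAreTDZ (A : Type u) [NormedRing A] : Prop :=
  ∀ T : A, ¬ IsUnit T → ∀ c : ℝ, 0 < c → ∃ S : A, ‖S‖ = 1 ∧ (‖T * S‖ < c ∨ ‖S * T‖ < c)

/-- both properties of the commutant of `ρ` -/
def Good {G : Type u} [Group G] {X : Type v} [NormedAddCommGroup X] [NormedSpace ℂ X]
    (ρ : G →* (X →L[ℂ] X)) : Prop :=
  SingularAreTDZ (Commutant ρ) ∧ HasSpectralPermanence.{v, w} (Commutant ρ)

theorem key {G : Type u} [Group G] [TopologicalSpace G] [IsTopologicalGroup G]
    [CompactSpace G] [T2Space G] {X : Type v} [NormedAddCommGroup X] [NormedSpace ℂ X]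
    [CompleteSpace X] (ρ : G →* (X →L[ℂ] X)) (hρ : IsRep ρ) :
    SingularAreTDZ (Commutant ρ) ∧ HasSpectralPermanence.{v, w} (Commutant ρ) := by
  obtain ⟨⟨M, hM⟩, hc⟩ := hρ
  let _ : MeasurableSpace G := borel G
  have _ : BorelSpace G := ⟨rfl⟩
  let r : Pool.Agent.Y251.RQ.BRep G X := ⟨ρ, M, hM, hc⟩
  exact ⟨fun T hT c hc' => Pool.Agent.Y251.RQ.exists_small r T hT c hc',
    fun B _ _ j hj x => Pool.Agent.Y251.RQ.spectral_permanence r B j hj x⟩

theorem isRep_actionLp {G : Type u} [Group G] [TopologicalSpace G] [IsTopologicalGroup G]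
    {Y : Type u} [TopologicalSpace Y] [T2Space Y] [MeasurableSpace Y] [BorelSpace Y]
    [MulAction G Y] [ContinuousSMul G Y] (ν : Measure Y) [IsLocallyFiniteMeasure ν]
    [ν.InnerRegularCompactLTTop] [SMulInvariantMeasure G Y ν] (p : ENNReal) [Fact (1 ≤ p)]
    (hp : p ≠ ⊤) (E : Type v) [NormedAddCommGroup E] [NormedSpace ℂ E]
    (ρ : G →* (Lp E p ν →L[ℂ] Lp E p ν)) (hρ : ∀ x f, ρ x f = DomMulAct.mk x⁻¹ • f) :
    IsRep ρ := by
  have _ : Fact (p ≠ ⊤) := ⟨hp⟩
  let _ : MeasurableSpace G := borel G
  have _ : BorelSpace G := ⟨rfl⟩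
  refine ⟨⟨1, fun x => ?_⟩, fun f => ?_⟩
  · refine ContinuousLinearMap.opNorm_le_bound _ zero_le_one (fun g => ?_)
    rw [one_mul, hρ]
    exact (DomMulAct.norm_smul_Lp _ g).le
  · simp_rw [hρ]
    exact (DomMulAct.continuous_mk.comp continuous_inv).smul continuous_const

/-- the action `(x, f) ↦ f(x⁻¹ ·)` of `G` on `L^p(Y, ν; E)` is a representation -/
theorem exists_actionLp {G : Type u} [Group G] {Y : Type u} [MeasurableSpace Y] [MulAction G Y]
    [MeasurableConstSMul G Y] (ν : Measure Y) [SMulInvariantMeasure G Y ν] (p : ENNReal)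
    [Fact (1 ≤ p)] (E : Type v) [NormedAddCommGroup E] [NormedSpace ℂ E] :
    ∃ ρ : G →* (Lp E p ν →L[ℂ] Lp E p ν), ∀ x f, ρ x f = DomMulAct.mk x⁻¹ • f := by
  let t : G → (Lp E p ν →L[ℂ] Lp E p ν) := fun x => LinearMap.mkContinuous
    { toFun := fun f => DomMulAct.mk x⁻¹ • f
      map_add' := fun f g => smul_add _ f g
      map_smul' := fun c f => smul_comm _ c f } 1 (fun f => by
        rw [one_mul]
        exact (DomMulAct.norm_smul_Lp _ f).le)
  refine ⟨⟨⟨t, ?_⟩, ?_⟩, fun x f => rfl⟩
  · ext1 f
    change DomMulAct.mk (1 : G)⁻¹ • f = f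
    rw [inv_one, DomMulAct.mk_one, one_smul]
  · intro x y
    ext1 f
    change DomMulAct.mk (x * y)⁻¹ • f = DomMulAct.mk x⁻¹ • (DomMulAct.mk y⁻¹ • f)
    rw [mul_inv_rev, DomMulAct.mk_mul, mul_smul]

/-- the commutant of the action `(x, f) ↦ f(x⁻¹ ·)` on `L^p(Y, ν; E)` -/
theorem Lp_case {G : Type u} [Group G] [TopologicalSpace G] [IsTopologicalGroup G]
    [CompactSpace G] [T2Space G] {Y : Type u} [TopologicalSpace Y] [T2Space Y] [MeasurableSpace Y]
    [BorelSpace Y] [MulAction G Y] [ContinuousSMul G Y] (ν : Measure Y)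
    [IsLocallyFiniteMeasure ν] [ν.InnerRegularCompactLTTop] [SMulInvariantMeasure G Y ν]
    (p : ENNReal) [Fact (1 ≤ p)] (hp : p ≠ ⊤) (E : Type u) [NormedAddCommGroup E]
    [NormedSpace ℂ E] [CompleteSpace E] :
    ∃ ρ : G →* (Lp E p ν →L[ℂ] Lp E p ν), (∀ x f, ρ x f = DomMulAct.mk x⁻¹ • f) ∧
      Good.{u, u, w} ρ := by
  obtain ⟨ρ, hρ⟩ := exists_actionLp (G := G) ν p E
  exact ⟨ρ, hρ, key ρ (isRep_actionLp ν p hp E ρ hρ)⟩

/-- the translations of `L^p(G)` -/
noncomputable def translations {G : Type u} [CommGroup G] [TopologicalSpace G]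
    [IsTopologicalGroup G] [CompactSpace G] [T2Space G] [MeasurableSpace G] [BorelSpace G]
    (μ : Measure G) [μ.IsHaarMeasure] [IsProbabilityMeasure μ] [μ.Regular]
    (p : ENNReal) [Fact (1 ≤ p)] (hp : p ≠ ⊤) : G →* (Lp ℂ p μ →L[ℂ] Lp ℂ p μ) where
  toFun x := Pool.Agent.H481R3.CG.trans μ p x
  map_one' := ContinuousLinearMap.ext fun g => Pool.Agent.H481R3.CG.trans_one μ p g hp
  map_mul' x y := ContinuousLinearMap.ext fun g =>
    (Pool.Agent.H481R3.CG.trans_trans μ p x y g hp).symm

theorem keyMM {G : Type u} [CommGroup G] [TopologicalSpace G] [IsTopologicalGroup G]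
    [CompactSpace G] [T2Space G] [MeasurableSpace G] [BorelSpace G] (μ : Measure G)
    [μ.IsHaarMeasure] [IsProbabilityMeasure μ] [μ.Regular] (p : ENNReal) [Fact (1 ≤ p)]
    (hp : p ≠ ⊤) : SingularAreTDZ (Pool.Agent.H481R3.CG.MM μ p) ∧
      HasSpectralPermanence.{u, w} (Pool.Agent.H481R3.CG.MM μ p) := by
  have h := key.{u, u, w} (translations μ p hp) ⟨⟨1, fun x => by
    refine ContinuousLinearMap.opNorm_le_bound _ zero_le_one (fun g => ?_)
    rw [one_mul]
    exact (Pool.Agent.H481R3.CG.norm_trans μ p x g).le⟩,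
    fun g => Pool.Agent.H481R3.CG.continuous_trans μ p hp g⟩
  have e : Commutant (translations μ p hp) = Pool.Agent.H481R3.CG.MM μ p := by
    ext T
    rw [Pool.Agent.H481R3.CG.mem_MM]
    unfold Commutant
    rw [Subalgebra.mem_centralizer_iff]
    constructor
    · intro hT x g
      exact (DFunLike.congr_fun (hT _ ⟨x, rfl⟩) g).symm
    · rintro hT _ ⟨x, rfl⟩
      ext1 g
      exact (hT x g).symm
  rw [e] at h
  exact h

/-- (1) For every bounded strongly continuous representation `ρ` of a compact group `G`, abelian or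
not, on a Banach space `X`, every noninvertible element of the commutant `ρ(G)'` is a left or right
topological divisor of zero in `ρ(G)'`, and `ρ(G)'` has the spectral permanence property, also with
respect to noncommutative and noncomplete normed algebras. (For instance `ρ` may be the action
`(x, f) ↦ f(x⁻¹ ·)` on `L^p(Y, ν; E)`, `1 ≤ p < ∞`, of a compact group which acts on `Y`, see
`Lp_case`.) (2) In particular this holds for the multiplier
algebra `M(L^p(G))` (as in the starting file), the algebra of all bounded operators on `L^p(G)`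
commuting with all translations, for every compact abelian group `G` and every `1 ≤ p < ∞`. -/
theorem result :
    (∀ (G : Type u) [Group G] [TopologicalSpace G] [IsTopologicalGroup G] [CompactSpace G]
      [T2Space G] (X : Type v) [NormedAddCommGroup X] [NormedSpace ℂ X] [CompleteSpace X]
      (ρ : G →* (X →L[ℂ] X)), IsRep ρ → Good.{u, v, w} ρ) ∧
    ∀ (G : Type u) [CommGroup G] [TopologicalSpace G] [IsTopologicalGroup G] [CompactSpace G]
      [T2Space G] [MeasurableSpace G] [BorelSpace G] (μ : Measure G) [μ.IsHaarMeasure]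
      [μ.Regular] [IsProbabilityMeasure μ] (p : ENNReal) [Fact (1 ≤ p)], p ≠ ⊤ →
      SingularAreTDZ (MultiplierAlgebra μ p) ∧
        HasSpectralPermanence.{u, w} (MultiplierAlgebra μ p) := by
  refine ⟨?_, ?_⟩
  · intro G _ _ _ _ _ X _ _ _ ρ hρ
    exact key ρ hρ
  · intro G _ _ _ _ _ _ _ μ _ _ _ p _ hp
    obtain ⟨h1, h2⟩ := keyMM.{u, w} μ p hp
    refine ⟨?_, ?_⟩
    · intro T hT c hc
      have hT' : ¬ IsUnit ((ident μ p).symm T) := fun h => hT (by
        have := h.map (ident μ p)
        rwa [AlgEquiv.apply_symm_apply] at this)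
      obtain ⟨S, hS1, hS2⟩ := h1 _ hT' c hc
      exact ⟨ident μ p S, hS1, hS2⟩
    · intro B _ _ j hj x
      have h3 : IsEmbedding (j.comp (ident μ p).toAlgHom) := hj.comp (ident_isEmbedding μ p)
      have h4 := h2 B (j.comp (ident μ p).toAlgHom) h3 ((ident μ p).symm x)
      rw [AlgEquiv.spectrum_eq (ident μ p).symm x] at h4
      rw [← h4]
      congr 1

end Pool.Agent.Results.MP_d09f5b_an.CommutantPermanence
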